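import Pool.Agent.helper20.SOL.SpecE

set_option autoImplicit false

namespace Pool.Agent.SOL

open Pool.Agent.helper54.SOG Finset

open scoped BigOperators

/-- the eighth root -/
def NE77_e : Vec 8 := ![0, 0, 0, 0, 0, 0, 2, 2]

theorem NE77_dp_e (a : Vec 8) : dp a NE77_e = 2 * (a 6 + a 7) := by
  simp [dp, NE77_e, Fin.sum_univ_eight]
  ring

theorem NE77_e_mem : NE77_e ∈ R8 := by
  refine ⟨⟨?_, ?_⟩, ?_⟩
  · intro i j
    fin_cases i <;> fin_cases j <;> simp [NE77_e]
  · simp [NE77_e, Fin.sum_univ_eight]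
  · rw [NE77_dp_e]
    simp [NE77_e]

theorem NE77_dp_add_right (x y z : Vec 8) : dp x (y + z) = dp x y + dp x z := by
  simp [dp, mul_add, Finset.sum_add_distrib]

theorem NE77_dp_add_left (x y z : Vec 8) : dp (x + y) z = dp x z + dp y z := by
  simp [dp, add_mul, Finset.sum_add_distrib]

theorem NE77_vert {x : Vec 8} (hx : x ∈ VE R7 7) : x + NE77_e ∈ VE R8 8 := by
  obtain ⟨S, hc, hS, ho, hs⟩ := hx
  have hne : NE77_e ∉ S := by
    intro h
    have := (hS _ h).2.1
    simp [NE77_e] at this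
  refine ⟨insert NE77_e S, ?_, ?_, ?_, ?_⟩
  · rw [Finset.card_insert_of_notMem hne, hc]
  · intro a ha
    rcases Finset.mem_insert.1 ha with h | h
    · rw [h]; exact NE77_e_mem
    · exact ⟨(hS a h).1, (hS a h).2.2⟩
  · have key : ∀ a ∈ S, dp a NE77_e = 0 := by
      intro a ha
      rw [NE77_dp_e, (hS a ha).2.1, mul_zero]
    intro a ha b hb hab
    rcases Finset.mem_insert.1 ha with h | h <;> rcases Finset.mem_insert.1 hb with h' | h'
    · exact absurd (h.trans h'.symm) hab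
    · rw [h, dp_comm]; exact key b h'
    · rw [h']; exact key a h
    · exact ho a h b h' hab
  · rw [Finset.sum_insert hne, hs, add_comm]

theorem NE77 (hME8d : ME8d_stmt) (hELB : ELB_stmt) : NE77_stmt := by
  intro x hx y hy hxy
  obtain ⟨-, h2, h3, -, -⟩ := hELB
  have x7 := (h3 7 x).2.1 hx
  have y7 := (h3 7 y).2.1 hy
  have xy7 := (h3 7 (x - y)).2.1 hxy
  obtain ⟨u, hu, hxu⟩ := (hME8d _).1 (NE77_vert hx)
  obtain ⟨v, hv, hyv⟩ := (hME8d _).1 (NE77_vert hy)
  have e1 : dp x x = 56 := by have := x7.2.2; norm_num at this; exact this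
  have e2 : dp y y = 56 := by have := y7.2.2; norm_num at this; exact this
  have e3 : dp (x - y) (x - y) = 56 := by have := xy7.2.2; norm_num at this; exact this
  rw [dp_sub_sub] at e3
  have e4 : dp (x + NE77_e) (y + NE77_e) = dp (u + u) (v + v) := by rw [hxu, hyv]
  have e5 : dp (x + NE77_e) (y + NE77_e) = dp x y + 8 := by
    rw [NE77_dp_add_left, NE77_dp_add_right, NE77_dp_add_right, dp_comm NE77_e y, NE77_dp_e x,
      NE77_dp_e y, x7.2.1, y7.2.1, NE77_dp_e]
    simp [NE77_e]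
  have e6 : dp (u + u) (v + v) = 4 * dp u v := by
    rw [NE77_dp_add_left, NE77_dp_add_right]
    ring
  have e7 := (h2 u v hu.1 hv.1).1
  omega

end Pool.Agent.SOL
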